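import Pool.Agent.Helper33.DZ.Stmts

set_option autoImplicit false

namespace Pool.Agent.Helper33.DZ

theorem odd_split (f : ℕ → ℝ) (N : ℕ) :
    ∑ h ∈ Finset.Icc 2 (2 * N + 1), f h =
      ∑ j ∈ Finset.Icc 1 N, f (2 * j) + ∑ i ∈ Finset.range N, f (2 * i + 3) := by
  induction N with
  | zero => simp
  | succ N ih =>
    have e1 : 2 * (N + 1) + 1 = (2 * N + 1 + 1) + 1 := by ring
    rw [e1, Finset.sum_Icc_succ_top (by omega), Finset.sum_Icc_succ_top (by omega), ih,
      Finset.sum_Icc_succ_top (by omega), Finset.sum_range_succ]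
    have e2 : 2 * (N + 1) = 2 * N + 1 + 1 := by ring
    have e3 : 2 * N + 3 = 2 * N + 1 + 1 + 1 := by ring
    rw [e2, e3]
    ring

theorem st_ODD (hSTUF : ST_STUF) (hSUM : ST_SUM) (hEULC : ST_EULC) : ST_ODD := by
  intro m hm
  have h1 := hSUM (2 * m) (by omega)
  have h2 := hEULC m hm
  have h3 := odd_split (fun h => dz h (2 * m - h)) (m - 1)
  have e1 : 2 * (m - 1) + 1 = 2 * m - 1 := by omega
  rw [e1, h1] at h3
  have h4 : ∑ j ∈ Finset.Icc 1 (m - 1), zt (2 * j) * zt (2 * m - 2 * j) =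
      ∑ j ∈ Finset.Icc 1 (m - 1), (dz (2 * j) (2 * m - 2 * j) + dz (2 * m - 2 * j) (2 * j) +
        zt (2 * m)) := by
    apply Finset.sum_congr rfl
    intro j hj
    rw [Finset.mem_Icc] at hj
    rw [hSTUF (2 * j) (2 * m - 2 * j) (by omega) (by omega)]
    have e : 2 * j + (2 * m - 2 * j) = 2 * m := by omega
    rw [e]
  have h5 : ∑ j ∈ Finset.Icc 1 (m - 1), dz (2 * m - 2 * j) (2 * j) =
      ∑ j ∈ Finset.Icc 1 (m - 1), dz (2 * j) (2 * m - 2 * j) := by
    refine Finset.sum_nbij' (fun j => m - j) (fun j => m - j) ?_ ?_ ?_ ?_ ?_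
    · intro j hj
      rw [Finset.mem_Icc] at hj ⊢
      omega
    · intro j hj
      rw [Finset.mem_Icc] at hj ⊢
      omega
    · intro j hj
      rw [Finset.mem_Icc] at hj
      omega
    · intro j hj
      rw [Finset.mem_Icc] at hj
      omega
    · intro j hj
      rw [Finset.mem_Icc] at hj
      have e2 : 2 * m - 2 * j = 2 * (m - j) := by omega
      have e3 : 2 * m - 2 * (m - j) = 2 * j := by omega
      rw [e3, e2]
  rw [h4, Finset.sum_add_distrib, Finset.sum_add_distrib, h5, Finset.sum_const, Nat.card_Icc] at h2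
  have e4 : m - 1 + 1 - 1 = m - 1 := by omega
  rw [e4, nsmul_eq_mul, Nat.cast_sub (by omega)] at h2
  push_cast at h2
  have h6 : ∑ i ∈ Finset.range (m - 1), dz (2 * i + 3) (2 * m - (2 * i + 3)) =
      ∑ i ∈ Finset.range (m - 1), dz (2 * i + 3) (2 * m - 2 * i - 3) := by
    apply Finset.sum_congr rfl
    intro i _
    have e5 : 2 * m - (2 * i + 3) = 2 * m - 2 * i - 3 := by omega
    rw [e5]
  simp only [h6] at h3
  linarith

end Pool.Agent.Helper33.DZ
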