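import Pool.Agent.Helper33.DZ.Stmts

set_option autoImplicit false

namespace Pool.Agent.Helper33.DZ

theorem vt_pos (m i : ℕ) (hi : 1 ≤ i) : tt m i = dz (2 * i + 1) (2 * m - 2 * i - 1) := by
  unfold tt
  rw [if_neg (by omega)]

theorem vt_gen (m i : ℕ) (hi : i < m - 1) : dz (2 * i + 3) (2 * m - 2 * i - 3) ∈ VV m :=
  Submodule.subset_span ⟨⟨i, hi⟩, rfl⟩

theorem vt_tt (m i : ℕ) (hi : i + 1 < m - 1) : dz (2 * i + 3) (2 * m - 2 * i - 3) ∈
    Submodule.span ℚ (tt m '' (Finset.range (m - 1) : Set ℕ)) := by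
  apply Submodule.subset_span
  refine ⟨i + 1, ?_, ?_⟩
  · rw [Finset.mem_coe, Finset.mem_range]
    exact hi
  · rw [vt_pos m (i + 1) (by omega)]
    have e1 : 2 * (i + 1) + 1 = 2 * i + 3 := by ring
    have e2 : 2 * m - 2 * (i + 1) - 1 = 2 * m - 2 * i - 3 := by omega
    rw [e1, e2]

theorem st_VT (hODD : ST_ODD) : ST_VT := by
  intro m hm
  have hsum := hODD m hm
  apply le_antisymm
  · unfold VV
    rw [Submodule.span_le]
    rintro _ ⟨i, rfl⟩
    show dz (2 * (i : ℕ) + 3) (2 * m - 2 * (i : ℕ) - 3) ∈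
      Submodule.span ℚ (tt m '' (Finset.range (m - 1) : Set ℕ))
    by_cases hi : (i : ℕ) + 1 < m - 1
    · exact vt_tt m i hi
    · have hi2 : (i : ℕ) = m - 2 := by
        have := i.2
        omega
      have e1 : m - 1 = (m - 2) + 1 := by omega
      rw [e1, Finset.sum_range_succ] at hsum
      have h0 : tt m 0 ∈ Submodule.span ℚ (tt m '' (Finset.range (m - 1) : Set ℕ)) := by
        apply Submodule.subset_span
        refine ⟨0, ?_, rfl⟩
        rw [Finset.mem_coe, Finset.mem_range]
        omega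
      have h1 : ∑ x ∈ Finset.range (m - 2), dz (2 * x + 3) (2 * m - 2 * x - 3) ∈
          Submodule.span ℚ (tt m '' (Finset.range (m - 1) : Set ℕ)) := by
        apply Submodule.sum_mem
        intro x hx
        rw [Finset.mem_range] at hx
        exact vt_tt m x (by omega)
      have h2 : dz (2 * (i : ℕ) + 3) (2 * m - 2 * (i : ℕ) - 3) =
          (1 / 4 : ℚ) • tt m 0 -
            ∑ x ∈ Finset.range (m - 2), dz (2 * x + 3) (2 * m - 2 * x - 3) := by
        have h3 : tt m 0 = zt (2 * m) := by
          unfold tt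
          rw [if_pos rfl]
        rw [h3, Rat.smul_def, hi2]
        push_cast
        linarith
      rw [h2]
      exact Submodule.sub_mem _ (Submodule.smul_mem _ _ h0) h1
  · rw [Submodule.span_le]
    rintro _ ⟨i, hi, rfl⟩
    rw [Finset.mem_coe, Finset.mem_range] at hi
    show tt m i ∈ VV m
    by_cases h0 : i = 0
    · have h2 : tt m i = (4 : ℚ) • ∑ x ∈ Finset.range (m - 1),
          dz (2 * x + 3) (2 * m - 2 * x - 3) := by
        unfold tt
        rw [if_pos h0, Rat.smul_def, hsum]
        push_cast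
        ring
      rw [h2]
      apply Submodule.smul_mem
      apply Submodule.sum_mem
      intro x hx
      rw [Finset.mem_range] at hx
      exact vt_gen m x hx
    · rw [vt_pos m i (by omega)]
      have h3 := vt_gen m (i - 1) (by omega)
      have e1 : 2 * (i - 1) + 3 = 2 * i + 1 := by omega
      have e2 : 2 * m - 2 * (i - 1) - 3 = 2 * m - 2 * i - 1 := by omega
      rw [e1, e2] at h3
      exact h3

end Pool.Agent.Helper33.DZ
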